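import Pool.Agent.Y965.PL.Fin

/-! The dispersion inequality for the maps `3 x + d`, uniformly in `d`. After Pool/Agent/Y965/PS/Disp and
Pool/Agent/Y965/PL/Disp, where `d = 1` or `d = -1`. -/

set_option autoImplicit false

namespace Pool.Agent.H417_psd

open Finset Pool.Agent.Y965.PS Pool.Agent.Y965.PL

variable {d : ℤ}

theorem oc_le (x : ℤ) (t : ℕ) : 2 ^ (ac d t x) * oc d t x + 2 ^ (ac d t x) * 2 ^ t ≤
    2 ^ t * 3 ^ (ac d t x) := by
  induction t with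
  | zero => simp [ac, oc]
  | succ t ih =>
    have h23 : (2 : ℤ) ^ (ac d t x) ≤ 3 ^ (ac d t x) := pow_le_pow_left₀ (by norm_num) (by norm_num) _
    have ht : (0 : ℤ) < 2 ^ t := by positivity
    by_cases h : (Tz d)^[t] x % 2 = 0
    · have e1 : ac d (t + 1) x = ac d t x := by simp [ac, h]
      have e2 : oc d (t + 1) x = oc d t x := by simp [oc, h]
      rw [e1, e2, pow_succ]
      nlinarith
    · have e1 : ac d (t + 1) x = ac d t x + 1 := by simp [ac, h]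
      have e2 : oc d (t + 1) x = 3 * oc d t x + 2 ^ t := by simp [oc, h]
      rw [e1, e2, pow_succ, pow_succ, pow_succ]
      nlinarith

/-- the iterates of a large number are positive -/
theorem it_pos (hd2 : d % 2 = 1) {x : ℤ} {t : ℕ} (h : |d| * 2 ^ t < x) : 0 < (Tz d)^[t] x := by
  have h1 := main_id hd2 x t
  have h2 := oc_le (d := d) x t
  have h3 := oc_nonneg (d := d) x t
  have hr : (0 : ℤ) < 2 ^ t := by positivity
  have hp : (1 : ℤ) ≤ 2 ^ (ac d t x) := one_le_pow₀ (by norm_num)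
  have hq : (0 : ℤ) < 3 ^ (ac d t x) := by positivity
  have h4 : oc d t x ≤ 2 ^ t * 3 ^ (ac d t x) := by
    have : oc d t x ≤ 2 ^ (ac d t x) * oc d t x := by nlinarith
    have : 0 < (2 : ℤ) ^ (ac d t x) * 2 ^ t := by positivity
    linarith
  have h5 : -(|d| * (2 ^ t * 3 ^ (ac d t x))) ≤ d * oc d t x := by
    have h6 : |d| * oc d t x ≤ |d| * (2 ^ t * 3 ^ (ac d t x)) := mul_le_mul_of_nonneg_left h4 (abs_nonneg d)
    have h7 : -|d| * oc d t x ≤ d * oc d t x := mul_le_mul_of_nonneg_right (neg_abs_le d) h3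
    linarith
  have h8 : 3 ^ (ac d t x) * (|d| * 2 ^ t) < 3 ^ (ac d t x) * x := mul_lt_mul_of_pos_left h hq
  have h9 : 0 < 2 ^ t * (Tz d)^[t] x := by
    rw [h1]
    have e : 3 ^ (ac d t x) * (|d| * 2 ^ t) = |d| * (2 ^ t * 3 ^ (ac d t x)) := by ring
    linarith
  by_contra hcon
  have : 2 ^ t * (Tz d)^[t] x ≤ 0 := mul_nonpos_of_nonneg_of_nonpos hr.le (not_lt.1 hcon)
  linarith

theorem pair_small (hd2 : d % 2 = 1) (u : ℕ) {R R' : ℝ} (hRR : |(d : ℝ)| * R ≤ R') {x y : ℤ} (hx : Good d u R x) (hy : Good d u R y)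
    (hxy : x ≤ y) (h : kp d u x = kp d u y) : ((y - x : ℤ) : ℝ) ≤ R' * (32 / 9) ^ u := by
  unfold kp at h
  rw [Prod.mk.injEq] at h
  have h1 := main_id hd2 x (5 * u)
  have h2 := main_id hd2 y (5 * u)
  rw [h.1, h.2] at h1
  have h3 : (3 : ℤ) ^ (ac d (5 * u) y) * (y - x) = d * (oc d (5 * u) x - oc d (5 * u) y) := by linarith
  have hcx := oc_nonneg (d := d) x (5 * u)
  have hcy := oc_nonneg (d := d) y (5 * u)
  have h4 : (3 : ℝ) ^ (ac d (5 * u) y) * ((y - x : ℤ) : ℝ) ≤ R' * 2 ^ (5 * u) := by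
    have h5 : (3 : ℝ) ^ (ac d (5 * u) y) * ((y - x : ℤ) : ℝ) = d * (oc d (5 * u) x - oc d (5 * u) y) := by
      exact_mod_cast h3
    have hcx' : (0 : ℝ) ≤ oc d (5 * u) x := by exact_mod_cast hcx
    have hcy' : (0 : ℝ) ≤ oc d (5 * u) y := by exact_mod_cast hcy
    have h6 : |((oc d (5 * u) x : ℝ) - oc d (5 * u) y)| ≤ R * 2 ^ (5 * u) := by
      have g1 := hx.2.2
      have g2 := hy.2.2
      rw [abs_le]
      constructor <;> linarith
    rw [h5]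
    calc (d : ℝ) * (oc d (5 * u) x - oc d (5 * u) y) ≤ |(d : ℝ) * (oc d (5 * u) x - oc d (5 * u) y)| := le_abs_self _
      _ = |(d : ℝ)| * |((oc d (5 * u) x : ℝ) - oc d (5 * u) y)| := abs_mul _ _
      _ ≤ |(d : ℝ)| * (R * 2 ^ (5 * u)) := mul_le_mul_of_nonneg_left h6 (abs_nonneg _)
      _ = (|(d : ℝ)| * R) * 2 ^ (5 * u) := by ring
      _ ≤ R' * 2 ^ (5 * u) := mul_le_mul_of_nonneg_right hRR (by positivity)
  have h7 : (3 : ℝ) ^ (2 * u) ≤ 3 ^ (ac d (5 * u) y) := pow_le_pow_right₀ (by norm_num) hy.1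
  have h8 : (0 : ℝ) ≤ ((y - x : ℤ) : ℝ) := by exact_mod_cast (by linarith : (0 : ℤ) ≤ y - x)
  have h9 : (3 : ℝ) ^ (2 * u) * ((y - x : ℤ) : ℝ) ≤ R' * 2 ^ (5 * u) :=
    (mul_le_mul_of_nonneg_right h7 h8).trans h4
  have h10 : (3 : ℝ) ^ (2 * u) = 9 ^ u := by rw [pow_mul]; norm_num
  have h11 : (2 : ℝ) ^ (5 * u) = 32 ^ u := by rw [pow_mul]; norm_num
  rw [h10, h11] at h9
  rw [div_pow]
  have h12 : (0 : ℝ) < 9 ^ u := by positivity
  rw [← mul_div_assoc, le_div_iff₀ h12, mul_comm]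
  exact h9

theorem value_le (hd2 : d % 2 = 1) (u : ℕ) {R R' : ℝ} (hRR : |(d : ℝ)| * R ≤ R') {x : ℤ} (hx0 : 0 ≤ x) (hx : Good d u R x) :
    (((Tz d)^[5 * u] x : ℤ) : ℝ) ≤ x * (27 / 32) ^ u + R' := by
  have h1 := main_id hd2 x (5 * u)
  have hc := oc_nonneg (d := d) x (5 * u)
  have h3 : (2 : ℝ) ^ (5 * u) * (((Tz d)^[5 * u] x : ℤ) : ℝ) ≤ 3 ^ (ac d (5 * u) x) * x + |(d : ℝ)| * oc d (5 * u) x := by
    have h2 : (2 : ℝ) ^ (5 * u) * (((Tz d)^[5 * u] x : ℤ) : ℝ) = 3 ^ (ac d (5 * u) x) * x + d * oc d (5 * u) x := by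
      exact_mod_cast h1
    have hc' : (0 : ℝ) ≤ oc d (5 * u) x := by exact_mod_cast hc
    rw [h2]
    have := mul_le_mul_of_nonneg_right (le_abs_self (d : ℝ)) hc'
    linarith
  have h4 : (3 : ℝ) ^ (ac d (5 * u) x) ≤ 3 ^ (3 * u) := pow_le_pow_right₀ (by norm_num) hx.2.1
  have h5 : (0 : ℝ) ≤ x := by exact_mod_cast hx0
  have h6 : (2 : ℝ) ^ (5 * u) * (((Tz d)^[5 * u] x : ℤ) : ℝ) ≤ 3 ^ (3 * u) * x + R' * 2 ^ (5 * u) := by
    have g1 := mul_le_mul_of_nonneg_right h4 h5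
    have g2 : |(d : ℝ)| * oc d (5 * u) x ≤ |(d : ℝ)| * (R * 2 ^ (5 * u)) :=
      mul_le_mul_of_nonneg_left hx.2.2 (abs_nonneg _)
    have g3 : (|(d : ℝ)| * R) * 2 ^ (5 * u) ≤ R' * 2 ^ (5 * u) := mul_le_mul_of_nonneg_right hRR (by positivity)
    linarith
  have h10 : (3 : ℝ) ^ (3 * u) = 27 ^ u := by rw [pow_mul]; norm_num
  have h11 : (2 : ℝ) ^ (5 * u) = 32 ^ u := by rw [pow_mul]; norm_num
  rw [h10, h11] at h6
  have h12 : (0 : ℝ) < 32 ^ u := by positivity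
  rw [div_pow]
  have h13 : (((Tz d)^[5 * u] x : ℤ) : ℝ) ≤ (27 ^ u * x + R' * 32 ^ u) / 32 ^ u := by
    rw [le_div_iff₀ h12]; linarith
  refine h13.trans (le_of_eq ?_)
  field_simp

open Classical in
/-- number of the points reached -/
theorem image_card (hd2 : d % 2 = 1) (u : ℕ) {R R' : ℝ} (hRR : |(d : ℝ)| * R ≤ R') (hR' : 0 ≤ R') (N1 N : ℕ)
    (hdN : |d| * 2 ^ (5 * u) ≤ N1) :
    (((GS d u R N1 N).image fun m : ℕ => kp d u (m : ℤ)).card : ℝ) ≤ (u + 1) * (N * (27 / 32) ^ u + R') := by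
  set V : ℝ := N * (27 / 32) ^ u + R' with hV
  have hV0 : 0 ≤ V := by positivity
  have hsub : ((GS d u R N1 N).image fun m : ℕ => kp d u (m : ℤ)) ⊆
      (Icc (1 : ℤ) ⌊V⌋) ×ˢ (Icc (2 * u) (3 * u)) := by
    intro p hp
    rw [mem_image] at hp
    obtain ⟨m, hm, rfl⟩ := hp
    rw [mem_GS] at hm
    unfold kp
    rw [mem_product, mem_Icc, mem_Icc]
    refine ⟨⟨?_, ?_⟩, hm.2.1, hm.2.2.1⟩
    · exact Order.one_le_iff_pos.2 (it_pos hd2 (x := (m : ℤ)) (lt_of_le_of_lt hdN (by exact_mod_cast hm.1.1)))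
    · apply Int.le_floor.2
      refine (value_le hd2 u hRR (by positivity) hm.2).trans ?_
      rw [hV]
      have : ((m : ℤ) : ℝ) ≤ N := by exact_mod_cast hm.1.2
      gcongr
  have h1 := card_le_card hsub
  rw [card_product, Nat.card_Icc, Int.card_Icc] at h1
  have h2 : ((⌊V⌋ + 1 - 1).toNat : ℝ) ≤ V := by
    rw [add_sub_cancel_right]
    have h3 : 0 ≤ ⌊V⌋ := Int.floor_nonneg.2 hV0
    have h4 : (((⌊V⌋).toNat : ℤ) : ℝ) = (⌊V⌋ : ℝ) := by rw [Int.toNat_of_nonneg h3]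
    have h5 : (((⌊V⌋).toNat : ℕ) : ℝ) = (⌊V⌋ : ℝ) := by exact_mod_cast h4
    rw [h5]
    exact Int.floor_le V
  have h3 : (3 * u + 1 - 2 * u : ℕ) = u + 1 := by omega
  rw [h3] at h1
  have h4 : (((GS d u R N1 N).image fun m : ℕ => kp d u (m : ℤ)).card : ℝ) ≤
      ((⌊V⌋ + 1 - 1).toNat : ℝ) * ((u + 1 : ℕ) : ℝ) := by exact_mod_cast h1
  refine h4.trans ?_
  push_cast
  rw [mul_comm]
  exact mul_le_mul_of_nonneg_left h2 (by positivity)

open Classical in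
theorem upper_pairs (hd2 : d % 2 = 1) (u : ℕ) {R R' : ℝ} (hRR : |(d : ℝ)| * R ≤ R') (N1 N : ℕ) (z : ℕ → ℂ) :
    ∑ p ∈ (PP d u R N1 N).filter (fun p => p.1 < p.2), z p.1 * (starRingEnd ℂ) (z p.2)
      = ∑ h ∈ Icc 1 ⌊R' * (32 / 9) ^ u⌋₊, ∑ m ∈ (Ioc N1 (N - h)).filter (fun m : ℕ => Pair d u R h m),
          z m * (starRingEnd ℂ) (z (m + h)) := by
  rw [sum_sigma']
  refine sum_bij' (fun p _ => ⟨p.2 - p.1, p.1⟩) (fun q _ => (q.2, q.2 + q.1)) ?_ ?_ ?_ ?_ ?_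
  · intro p hp
    rw [mem_filter, mem_PP, mem_GS, mem_GS] at hp
    obtain ⟨⟨⟨⟨a1, a2⟩, b1, b2⟩, hk⟩, hlt⟩ := hp
    rw [mem_sigma, mem_Icc, mem_filter, mem_Ioc]
    have e : ((p.1 : ℤ) + ((p.2 - p.1 : ℕ) : ℤ)) = (p.2 : ℤ) := by omega
    refine ⟨⟨by dsimp only; omega, ?_⟩, ⟨by dsimp only; omega, by dsimp only; omega⟩, ?_⟩
    · apply Nat.le_floor
      have h1 := pair_small hd2 u hRR a2 b2 (by omega) hk
      have h2 : (((p.2 : ℤ) - (p.1 : ℤ) : ℤ) : ℝ) = ((p.2 - p.1 : ℕ) : ℝ) := by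
        have : ((p.2 : ℤ) - (p.1 : ℤ) : ℤ) = ((p.2 - p.1 : ℕ) : ℤ) := by omega
        rw [this]; norm_cast
      rw [h2] at h1
      exact h1
    · unfold Pair
      dsimp only
      rw [e]
      exact ⟨a2, b2, hk⟩
  · rintro ⟨h, m⟩ hq
    rw [mem_sigma, mem_Icc, mem_filter, mem_Ioc] at hq
    dsimp only at hq
    obtain ⟨⟨h1, h2⟩, ⟨h3, h4⟩, h5, h6, h7⟩ := hq
    rw [mem_filter, mem_PP, mem_GS, mem_GS]
    dsimp only
    push_cast
    refine ⟨⟨⟨⟨⟨h3, by omega⟩, h5⟩, ⟨by omega, by omega⟩, h6⟩, h7⟩, by omega⟩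
  · intro p hp
    rw [mem_filter] at hp
    have : p.1 + (p.2 - p.1) = p.2 := by omega
    simp only [this, Prod.mk.eta]
  · rintro ⟨h, m⟩ _
    simp
  · intro p hp
    rw [mem_filter] at hp
    have : p.1 + (p.2 - p.1) = p.2 := by omega
    simp only [this]

open Classical in
/-- THE DISPERSION INEQUALITY -/
theorem disp (hd2 : d % 2 = 1) (u : ℕ) {R R' : ℝ} (hRR : |(d : ℝ)| * R ≤ R') (hR' : 0 ≤ R') (N1 N : ℕ)
    (hdN : |d| * 2 ^ (5 * u) ≤ N1) (hu : 2 ^ (5 * u) ≤ N1) {F : ℤ → ℝ} (hF : ASync d F)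
    {z : ℕ → ℂ} (hz1 : ∀ m, ‖z m‖ ≤ 1) {β : ℕ → ℝ} (hβ : ∀ h, 0 ≤ β h)
    (hz : ∀ h : ℕ, 1 ≤ h → (h : ℝ) ≤ R' * (32 / 9) ^ u → ∀ m0 J : ℕ, N1 < m0 →
      (∀ j < J, m0 + 2 ^ (5 * u) * j + h ≤ N) →
      ‖∑ j ∈ range J, z (m0 + 2 ^ (5 * u) * j) * (starRingEnd ℂ) (z (m0 + 2 ^ (5 * u) * j + h))‖ ≤ β h) :
    ‖∑ m ∈ GS d u R N1 N, (F m : ℂ) * z m‖ ^ 2 ≤ ((u + 1) * (N * (27 / 32) ^ u + R')) *
      (N + 2 * (2 ^ (5 * u) * ∑ h ∈ Icc 1 ⌊R' * (32 / 9) ^ u⌋₊, β h)) := by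
  set G := GS d u R N1 N with hG
  set κ : ℕ → ℤ × ℕ := fun m => kp d u (m : ℤ) with hκ
  set I := G.image κ with hI
  set A : ℤ × ℕ → ℂ := fun p => ∑ m ∈ G.filter (fun m => κ m = p), z m with hA
  -- step 1
  have h1 : ‖∑ m ∈ G, (F m : ℂ) * z m‖ ≤ ∑ p ∈ I, ‖A p‖ := by
    rw [← sum_fiberwise_of_maps_to (s := G) (t := I) (g := κ) (fun m hm => mem_image_of_mem _ hm)]
    refine (norm_sum_le _ _).trans (sum_le_sum fun p hp => ?_)
    rw [hI, mem_image] at hp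
    obtain ⟨m0, hm0, hp0⟩ := hp
    have e : ∑ m ∈ G.filter (fun m => κ m = p), (F m : ℂ) * z m = (F m0 : ℂ) * A p := by
      rw [hA]
      dsimp only
      rw [mul_sum]
      apply sum_congr rfl
      intro m hm
      rw [mem_filter] at hm
      have h2 : κ m = κ m0 := by rw [hm.2, hp0]
      rw [hκ] at h2
      unfold kp at h2
      simp only [Prod.mk.injEq] at h2
      have hmG : m ∈ GS d u R N1 N := hm.1
      have hm0G : m0 ∈ GS d u R N1 N := hm0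
      rw [mem_GS] at hmG hm0G
      have i1 : (2 : ℤ) ^ (5 * u) < m := by
        have : 2 ^ (5 * u) < m := lt_of_le_of_lt hu hmG.1.1
        exact_mod_cast this
      have i2 : (2 : ℤ) ^ (5 * u) < m0 := by
        have : 2 ^ (5 * u) < m0 := lt_of_le_of_lt hu hm0G.1.1
        exact_mod_cast this
      rw [hF.2 (5 * u) m m0 i1 i2 h2.1 h2.2]
    rw [e, norm_mul, Complex.norm_real, Real.norm_eq_abs]
    have := hF.1 m0
    nlinarith [norm_nonneg (A p)]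
  -- step 2
  have h2 : (∑ p ∈ I, ‖A p‖) ^ 2 ≤ I.card * ∑ p ∈ I, ‖A p‖ ^ 2 := sq_sum_le_card_mul_sum_sq
  -- step 3
  have h3 : ((∑ p ∈ I, ‖A p‖ ^ 2 : ℝ) : ℂ) = ∑ p ∈ PP d u R N1 N, z p.1 * (starRingEnd ℂ) (z p.2) := by
    have e1 : ∑ p ∈ PP d u R N1 N, z p.1 * (starRingEnd ℂ) (z p.2)
        = ∑ m ∈ G, ∑ m' ∈ G.filter (fun m' => κ m = κ m'), z m * (starRingEnd ℂ) (z m') := by
      unfold PP
      rw [sum_filter, sum_product]
      exact sum_congr rfl fun m _ => (sum_filter _ _).symm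
    rw [e1, ← sum_fiberwise_of_maps_to (s := G) (t := I) (g := κ) (fun m hm => mem_image_of_mem _ hm)]
    push_cast
    apply sum_congr rfl
    intro p _
    have e2 : ∑ m ∈ G.filter (fun m => κ m = p), ∑ m' ∈ G.filter (fun m' => κ m = κ m'), z m * (starRingEnd ℂ) (z m')
        = ∑ m ∈ G.filter (fun m => κ m = p), ∑ m' ∈ G.filter (fun m' => κ m' = p), z m * (starRingEnd ℂ) (z m') := by
      apply sum_congr rfl
      intro m hm
      rw [mem_filter] at hm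
      rw [hm.2]
      apply sum_congr _ fun _ _ => rfl
      ext m'
      rw [mem_filter, mem_filter]
      constructor
      · rintro ⟨a, b⟩; exact ⟨a, b.symm⟩
      · rintro ⟨a, b⟩; exact ⟨a, b.symm⟩
    rw [e2, ← sum_mul_sum, ← map_sum]
    rw [← Complex.ofReal_pow, ← Complex.normSq_eq_norm_sq, Complex.mul_conj]
  -- step 4
  set D : ℂ := ∑ p ∈ (PP d u R N1 N).filter (fun p => p.1 < p.2), z p.1 * (starRingEnd ℂ) (z p.2) with hD
  have h4 : ∑ p ∈ PP d u R N1 N, z p.1 * (starRingEnd ℂ) (z p.2)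
      = ∑ p ∈ (PP d u R N1 N).filter (fun p => p.1 = p.2), z p.1 * (starRingEnd ℂ) (z p.2)
        + (D + (starRingEnd ℂ) D) := by
    rw [← sum_filter_add_sum_filter_not (PP d u R N1 N) (fun p => p.1 = p.2)]
    congr 1
    rw [← sum_filter_add_sum_filter_not ((PP d u R N1 N).filter fun p => ¬ p.1 = p.2) (fun p => p.1 < p.2)]
    congr 1
    · rw [hD, filter_filter]
      apply sum_congr _ fun _ _ => rfl
      apply filter_congr
      intro p _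
      omega
    · rw [hD, map_sum, filter_filter]
      refine sum_bij' (fun p _ => (p.2, p.1)) (fun p _ => (p.2, p.1)) ?_ ?_ ?_ ?_ ?_
      · intro p hp
        rw [mem_filter, mem_PP] at hp ⊢
        exact ⟨⟨⟨hp.1.1.2, hp.1.1.1⟩, hp.1.2.symm⟩, by dsimp only; omega⟩
      · intro p hp
        rw [mem_filter, mem_PP] at hp ⊢
        refine ⟨⟨⟨hp.1.1.2, hp.1.1.1⟩, hp.1.2.symm⟩, ?_⟩
        dsimp only
        have := hp.2
        omega
      · intro p _; rfl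
      · intro p _; rfl
      · intro p _
        dsimp only
        rw [map_mul, Complex.conj_conj, mul_comm]
  have h5 : ‖∑ p ∈ (PP d u R N1 N).filter (fun p => p.1 = p.2), z p.1 * (starRingEnd ℂ) (z p.2)‖ ≤ N := by
    refine (norm_sum_le _ _).trans ?_
    have h6 : ∀ p ∈ (PP d u R N1 N).filter (fun p => p.1 = p.2), ‖z p.1 * (starRingEnd ℂ) (z p.2)‖ ≤ 1 := by
      intro p _
      rw [norm_mul, RCLike.norm_conj]
      have a := hz1 p.1
      have b := hz1 p.2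
      nlinarith [norm_nonneg (z p.1), norm_nonneg (z p.2)]
    refine (sum_le_sum h6).trans ?_
    rw [sum_const, nsmul_eq_mul, mul_one]
    have h7 : ((PP d u R N1 N).filter (fun p => p.1 = p.2)) ⊆ (Icc 1 N).image fun m => (m, m) := by
      intro p hp
      rw [mem_filter, mem_PP, mem_GS] at hp
      rw [mem_image]
      refine ⟨p.1, ?_, ?_⟩
      · rw [mem_Icc]; have := hp.1.1.1.1; omega
      · ext
        · rfl
        · exact hp.2
    have h8 := (card_le_card h7).trans card_image_le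
    rw [Nat.card_Icc, Nat.add_sub_cancel] at h8
    exact_mod_cast h8
  have h6 : ‖D‖ ≤ 2 ^ (5 * u) * ∑ h ∈ Icc 1 ⌊R' * (32 / 9) ^ u⌋₊, β h := by
    rw [hD, upper_pairs hd2 u hRR, mul_sum]
    refine (norm_sum_le _ _).trans (sum_le_sum fun h hh => ?_)
    rw [mem_Icc] at hh
    have hh2 : (h : ℝ) ≤ R' * (32 / 9) ^ u := (Nat.le_floor_iff (by positivity)).1 hh.2
    exact pair_sum u R N1 N h (hz h hh.1 hh2) (hβ h)
  have h7 : ∑ p ∈ I, ‖A p‖ ^ 2 ≤ N + 2 * (2 ^ (5 * u) * ∑ h ∈ Icc 1 ⌊R' * (32 / 9) ^ u⌋₊, β h) := by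
    have h8 : ‖((∑ p ∈ I, ‖A p‖ ^ 2 : ℝ) : ℂ)‖ = ∑ p ∈ I, ‖A p‖ ^ 2 := by
      rw [Complex.norm_real, Real.norm_eq_abs, abs_of_nonneg (sum_nonneg fun _ _ => by positivity)]
    rw [← h8, h3, h4]
    refine (norm_add_le _ _).trans ?_
    have h9 := norm_add_le D ((starRingEnd ℂ) D)
    rw [RCLike.norm_conj] at h9
    linarith
  calc _ ≤ (∑ p ∈ I, ‖A p‖) ^ 2 := pow_le_pow_left₀ (norm_nonneg _) h1 2
    _ ≤ I.card * ∑ p ∈ I, ‖A p‖ ^ 2 := h2
    _ ≤ _ := mul_le_mul (image_card hd2 u hRR hR' N1 N hdN) h7 (sum_nonneg fun _ _ => by positivity) (by positivity)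


end Pool.Agent.H417_psd
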