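import Pool.Agent.H417_psd.Sum

/-! Choice of the parameters. -/

set_option autoImplicit false

namespace Pool.Agent.H417_psd

open Finset Pool.Agent.H469R2.NK Pool.Agent.Y965.PS Pool.Agent.Y965.PL

/-- the exponential sums over the good integers -/
theorem En_bound {x : ℝ} (hx0 : 0 < x) (hx1 : x < 1 / 101) :
    ∃ C : ℝ, 1 ≤ C ∧ ∀ d : ℤ, d % 2 = 1 → ∀ N : ℕ, 100 ≤ Real.log N →
      |(d : ℝ)| ≤ Real.exp (0.0005 * Real.log N) → ∀ n i : ℝ, 1 ≤ n → 0 ≤ i → i ≤ 1 →
      n ≤ 4 * Real.exp ((2 * x + 1 / 2000) * Real.log N) → ∀ F : ℤ → ℝ, ASync d F →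
      ‖∑ m ∈ GS d ⌊3 * Real.log N / 16⌋₊ (Real.exp (0.0125 * Real.log N)) ⌊Real.exp (0.99 * Real.log N)⌋₊ N,
        (F m : ℂ) * e (n * ((m : ℝ) + i) ^ (1 - x))‖
        ≤ C * (Real.log N * Real.exp ((0.98453125 + x / 2) * Real.log N)) := by
  have hγ0 : (0 : ℝ) < 1 - x := by linarith
  have hγ1 : 1 - x < 1 := by linarith
  have a3 : 0 < (1 - x) * (1 - (1 - x)) := mul_pos hγ0 (by linarith)
  set C1 : ℝ := 1 + 72 / ((1 - x) * (1 - (1 - x))) with hC1
  have hC1p : 1 ≤ C1 := by rw [hC1]; have : 0 < 72 / ((1 - x) * (1 - (1 - x))) := by positivity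
                           linarith
  refine ⟨3 * C1, by linarith, ?_⟩
  intro d hd2 N hL hdL n i hn hi0 hi hnK F hF
  set L := Real.log N with hLdef
  have hNpos : (0 : ℝ) < N := by
    by_contra h
    have h0 : (N : ℝ) = 0 := le_antisymm (not_lt.1 h) (Nat.cast_nonneg _)
    rw [hLdef, h0, Real.log_zero] at hL
    linarith
  have hexp : Real.exp L = N := Real.exp_log hNpos
  set u := ⌊3 * L / 16⌋₊ with hu
  have hu1 : (u : ℝ) ≤ 3 * L / 16 := Nat.floor_le (by linarith)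
  have hu2 : 3 * L / 16 < u + 1 := Nat.lt_floor_add_one _
  set R := Real.exp (0.013 * L) with hR
  have hRR : |(d : ℝ)| * Real.exp (0.0125 * L) ≤ R := by
    calc |(d : ℝ)| * Real.exp (0.0125 * L) ≤ Real.exp (0.0005 * L) * Real.exp (0.0125 * L) :=
          mul_le_mul_of_nonneg_right hdL (Real.exp_pos _).le
      _ = R := by rw [hR, ← Real.exp_add]; congr 1; ring
  have hR1 : 1 ≤ R := Real.one_le_exp (by linarith)
  set N1 := ⌊Real.exp (0.99 * L)⌋₊ with hN1
  have hE99 : 1 ≤ Real.exp (0.99 * L) := Real.one_le_exp (by linarith)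
  have hN1a : (N1 : ℝ) ≤ Real.exp (0.99 * L) := Nat.floor_le (by positivity)
  have hN1b : Real.exp (0.99 * L) < N1 + 1 := Nat.lt_floor_add_one _
  have hN11 : 1 ≤ N1 := Nat.le_floor (by exact_mod_cast hE99)
  have hN11R : (1 : ℝ) ≤ N1 := by exact_mod_cast hN11
  have hN1N : N1 ≤ N := by
    have h1 : (N1 : ℝ) ≤ N := by
      rw [← hexp]; exact hN1a.trans (Real.exp_le_exp.2 (by linarith))
    exact_mod_cast h1
  have hu0 : (0 : ℝ) ≤ u := Nat.cast_nonneg u
  -- `2 ^ (5u) ≤ N`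
  have hq : 2 ^ (5 * u) ≤ N1 := by
    have h1 : (((2 ^ (5 * u) : ℕ)) : ℝ) ≤ Real.exp (0.99 * L) := by
      push_cast
      rw [pow_mul, show ((2 : ℝ) ^ 5) = 32 by norm_num]
      refine (pow_exp_le (by norm_num) exp_c4 u).trans (Real.exp_le_exp.2 ?_)
      linarith
    exact Nat.le_floor h1
  have hH : R * (32 / 9) ^ u ≤ N := by
    have h1 : (32 / 9 : ℝ) ^ u ≤ Real.exp (3.5 * u) := by
      refine (pow_le_pow_left₀ (by norm_num) (by norm_num : (32 / 9 : ℝ) ≤ 32) u).trans ?_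
      exact pow_exp_le (by norm_num) exp_c4 u
    calc R * (32 / 9) ^ u ≤ R * Real.exp (3.5 * u) := mul_le_mul_of_nonneg_left h1 (by linarith)
      _ = Real.exp (0.013 * L + 3.5 * u) := by rw [hR, Real.exp_add]
      _ ≤ Real.exp L := Real.exp_le_exp.2 (by linarith)
      _ = N := hexp
  have hN1g : (N1 : ℝ) ^ ((1 - x) - 2) ≤ 4 * Real.exp (-(0.99 * (1 + x) * L)) := by
    have h1 : Real.exp (0.99 * L) / 2 ≤ N1 := by linarith
    have h2 : (N1 : ℝ) ^ ((1 - x) - 2) ≤ (Real.exp (0.99 * L) / 2) ^ ((1 - x) - 2) :=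
      Real.rpow_le_rpow_of_nonpos (by positivity) h1 (by linarith)
    refine h2.trans ?_
    rw [Real.div_rpow (by positivity) (by norm_num), ← Real.exp_mul, div_eq_mul_inv, ← Real.rpow_neg (by norm_num), mul_comm]
    have h3 : (2 : ℝ) ^ (-((1 - x) - 2)) ≤ 4 := by
      calc (2 : ℝ) ^ (-((1 - x) - 2)) ≤ (2 : ℝ) ^ (2 : ℝ) := Real.rpow_le_rpow_of_exponent_le (by norm_num) (by linarith)
        _ = 4 := by norm_num
    have h4 : 0.99 * L * ((1 - x) - 2) = -(0.99 * (1 + x) * L) := by ring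
    rw [h4]
    exact mul_le_mul_of_nonneg_right h3 (Real.exp_pos _).le
  have hsm : n * R * (1024 / 9) ^ u * (N1 : ℝ) ^ ((1 - x) - 2) ≤ 2 := by
    have h1 : (1024 / 9 : ℝ) ^ u ≤ Real.exp (4.75 * u) := pow_exp_le (by norm_num) exp_c3 u
    calc n * R * (1024 / 9) ^ u * (N1 : ℝ) ^ ((1 - x) - 2)
        ≤ (4 * Real.exp ((2 * x + 1 / 2000) * L)) * R * Real.exp (4.75 * u) * (4 * Real.exp (-(0.99 * (1 + x) * L))) := by
          gcongr
      _ = 16 * Real.exp ((2 * x + 1 / 2000) * L + 0.013 * L + 4.75 * u + -(0.99 * (1 + x) * L)) := by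
          rw [hR, Real.exp_add, Real.exp_add, Real.exp_add]; ring
      _ ≤ 16 * Real.exp (-7) := by
          apply mul_le_mul_of_nonneg_left _ (by norm_num)
          apply Real.exp_le_exp.2
          nlinarith
      _ ≤ 2 := by
          have h5 : Real.exp (-7) ≤ 1 / 8 := by
            rw [Real.exp_neg, inv_eq_one_div]
            apply one_div_le_one_div_of_le (by norm_num)
            have := Real.add_one_le_exp (7 : ℝ)
            linarith
          linarith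
  have hdN : |d| * 2 ^ (5 * u) ≤ N1 := by
    have h1 : ((|d| * 2 ^ (5 * u) : ℤ) : ℝ) ≤ Real.exp (0.99 * L) := by
      push_cast
      rw [pow_mul, show ((2 : ℝ) ^ 5) = 32 by norm_num]
      calc |(d : ℝ)| * 32 ^ u ≤ Real.exp (0.0005 * L) * Real.exp (3.5 * u) :=
            mul_le_mul hdL (pow_exp_le (by norm_num) exp_c4 u) (by positivity) (Real.exp_pos _).le
        _ = Real.exp (0.0005 * L + 3.5 * u) := by rw [Real.exp_add]
        _ ≤ Real.exp (0.99 * L) := Real.exp_le_exp.2 (by linarith)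
    have h2 : (|d| * 2 ^ (5 * u) : ℤ) ≤ ⌊Real.exp (0.99 * L)⌋ := Int.le_floor.2 h1
    have h3 : (⌊Real.exp (0.99 * L)⌋ : ℤ) = (N1 : ℤ) := by
      rw [hN1]; exact (Int.natCast_floor_eq_floor (Real.exp_pos _).le).symm
    rw [h3] at h2
    exact h2
  have key := Pool.Agent.H417_psd.En_sq hd2 hγ0 hγ1 u hRR hR1 N1 N hdN hN11 hN1N hq hH n i hn hi0 hi hsm hF
  -- the two factors
  have f1 : (u + 1) * (N * (27 / 32) ^ u + R) ≤ 3 * L * Real.exp (0.9690625 * L) := by
    have g1 : (27 / 32 : ℝ) ^ u ≤ Real.exp (-0.165 * u) := pow_exp_le (by norm_num) c1' u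
    have g2 : N * (27 / 32 : ℝ) ^ u ≤ 2 * Real.exp (0.9690625 * L) := by
      calc (N : ℝ) * (27 / 32) ^ u ≤ N * Real.exp (-0.165 * u) := mul_le_mul_of_nonneg_left g1 hNpos.le
        _ = Real.exp (L + -0.165 * u) := by rw [Real.exp_add, hexp]
        _ ≤ Real.exp (0.165 + 0.9690625 * L) := Real.exp_le_exp.2 (by linarith)
        _ = Real.exp 0.165 * Real.exp (0.9690625 * L) := by rw [Real.exp_add]
        _ ≤ 2 * Real.exp (0.9690625 * L) := by
          apply mul_le_mul_of_nonneg_right _ (Real.exp_pos _).le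
          exact exp_c1.trans (by norm_num)
    have g3 : R ≤ Real.exp (0.9690625 * L) := Real.exp_le_exp.2 (by linarith)
    have g4 : (u : ℝ) + 1 ≤ L := by linarith
    have g5 : 0 ≤ N * (27 / 32 : ℝ) ^ u + R := by positivity
    calc ((u : ℝ) + 1) * (N * (27 / 32) ^ u + R) ≤ L * (3 * Real.exp (0.9690625 * L)) :=
          mul_le_mul g4 (by linarith) g5 (by linarith)
      _ = _ := by ring
  have f2 : (N + 4 / ((1 - x) * (1 - (1 - x))) * (3 * N : ℝ) ^ (2 - (1 - x)) * (1 + L)) ≤ C1 * L * Real.exp ((1 + x) * L) := by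
    have g1 : (3 * N : ℝ) ^ (2 - (1 - x)) ≤ 9 * Real.exp ((1 + x) * L) := by
      rw [Real.mul_rpow (by norm_num) hNpos.le]
      have g2 : (3 : ℝ) ^ (2 - (1 - x)) ≤ 9 := by
        calc (3 : ℝ) ^ (2 - (1 - x)) ≤ (3 : ℝ) ^ (2 : ℝ) := Real.rpow_le_rpow_of_exponent_le (by norm_num) (by linarith)
          _ = 9 := by norm_num
      have g3 : (N : ℝ) ^ (2 - (1 - x)) = Real.exp ((1 + x) * L) := by
        rw [← hexp, ← Real.exp_mul]; congr 1; ring
      rw [g3]
      exact mul_le_mul_of_nonneg_right g2 (Real.exp_pos _).le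
    have g4 : (N : ℝ) ≤ L * Real.exp ((1 + x) * L) := by
      have : (N : ℝ) ≤ Real.exp ((1 + x) * L) := by
        rw [← hexp]; apply Real.exp_le_exp.2; nlinarith
      nlinarith [Real.exp_pos ((1 + x) * L)]
    have g5 : 4 / ((1 - x) * (1 - (1 - x))) * (3 * N : ℝ) ^ (2 - (1 - x)) * (1 + L)
        ≤ 4 / ((1 - x) * (1 - (1 - x))) * (9 * Real.exp ((1 + x) * L)) * (2 * L) := by
      have : 1 + L ≤ 2 * L := by linarith
      have h0 : 0 ≤ (3 * N : ℝ) ^ (2 - (1 - x)) := by positivity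
      gcongr
    rw [hC1]
    calc _ ≤ L * Real.exp ((1 + x) * L) + 4 / ((1 - x) * (1 - (1 - x))) * (9 * Real.exp ((1 + x) * L)) * (2 * L) :=
          add_le_add g4 g5
      _ = _ := by ring
  have hx2 : (0 : ℝ) ≤ N + 4 / ((1 - x) * (1 - (1 - x))) * (3 * N : ℝ) ^ (2 - (1 - x)) * (1 + L) := by
    have : 0 ≤ 1 + L := by linarith
    positivity
  have h3 := key.trans (mul_le_mul f1 f2 hx2 (by positivity))
  have h4 : 3 * L * Real.exp (0.9690625 * L) * (C1 * L * Real.exp ((1 + x) * L))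
      ≤ (3 * C1 * (L * Real.exp ((0.98453125 + x / 2) * L))) ^ 2 := by
    have e1 : Real.exp (0.9690625 * L) * Real.exp ((1 + x) * L) = Real.exp ((0.98453125 + x / 2) * L) ^ 2 := by
      rw [← Real.exp_add, ← Real.exp_nat_mul]; congr 1; push_cast; ring
    have e2 : 3 * L * Real.exp (0.9690625 * L) * (C1 * L * Real.exp ((1 + x) * L))
        = 3 * C1 * L ^ 2 * (Real.exp (0.9690625 * L) * Real.exp ((1 + x) * L)) := by ring
    rw [e2, e1]
    have e3 : (3 * C1 * (L * Real.exp ((0.98453125 + x / 2) * L))) ^ 2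
        = (3 * C1) * (3 * C1 * L ^ 2 * Real.exp ((0.98453125 + x / 2) * L) ^ 2) := by ring
    rw [e3]
    have e4 : 0 ≤ 3 * C1 * L ^ 2 * Real.exp ((0.98453125 + x / 2) * L) ^ 2 := by positivity
    nlinarith
  exact (pow_le_pow_iff_left₀ (norm_nonneg _) (by positivity) two_ne_zero).1 (h3.trans h4)

end Pool.Agent.H417_psd
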