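import Pool.Agent.H417_psd.Fin
import Pool.Agent.Y965.PL.Core
import Pool.Agent.H499R2.NDK
import Pool.Agent.H499R2.NDCor
import Pool.Agent.H499R2.LT.R5

/-! Transfer to the sequences `⌊n ^ c⌋`, uniformly in `d`; invariant sets of the `3x+d` maps. -/

set_option autoImplicit false

namespace Pool.Agent.H417_psd

open Finset Filter Topology Pool.Agent.Y965.PS Pool.Agent.Y965.PL
open Pool.Agent.H499R2.ND (Td Dn Inv HD)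

/-- the transfer inequality, uniformly in `d` -/
theorem transfer_d {c : ℝ} (hc : 1 < c) (hc' : c < 101 / 100) : ∃ K : ℝ, 0 ≤ K ∧ ∀ d : ℤ, d % 2 = 1 →
    ∀ F : ℤ → ℝ, ASync d F → ∀ X : ℕ, 1 ≤ X → |(d : ℝ)| ≤ (X : ℝ) ^ (1 / 2000 : ℝ) →
    |∑ n ∈ Icc 1 X, F ⌊(n : ℝ) ^ c⌋ - ∑ m ∈ Icc 1 ⌊(X : ℝ) ^ c⌋₊, F m * ell (1 / c) m| ≤
      K * (X : ℝ) ^ (1 - 1 / 4000 : ℝ) := by
  obtain ⟨x, hx0, hx1, hγ⟩ := params hc hc'
  have hc0 : 0 < c := by linarith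
  obtain ⟨K1, hK1, H1⟩ := Pool.Agent.H417_psd.main_bound hx0 hx1
  refine ⟨K1, by linarith, ?_⟩
  intro d hd F hF X hX hdX
  have hX1 : (1 : ℝ) ≤ X := by exact_mod_cast hX
  set M := ⌊(X : ℝ) ^ c⌋₊ with hM
  have hXM : X ≤ M := by
    apply Nat.le_floor
    calc (X : ℝ) = (X : ℝ) ^ (1 : ℝ) := (Real.rpow_one _).symm
      _ ≤ (X : ℝ) ^ c := Real.rpow_le_rpow_of_exponent_le hX1 hc.le
  have hM1 : 1 ≤ M := hX.trans hXM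
  have hdM : |(d : ℝ)| ≤ Real.exp (0.0005 * Real.log M) := by
    refine hdX.trans ?_
    have h1 : (X : ℝ) ^ (1 / 2000 : ℝ) ≤ (M : ℝ) ^ (1 / 2000 : ℝ) :=
      Real.rpow_le_rpow (by positivity) (by exact_mod_cast hXM) (by norm_num)
    refine h1.trans (le_of_eq ?_)
    rw [Real.rpow_def_of_pos (by exact_mod_cast hM1)]
    congr 1
    have e : (0.0005 : ℝ) = 1 / 2000 := by norm_num
    rw [e]; ring
  rw [conv hc.le X F, ← sum_sub_distrib]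
  have h2 : ∑ m ∈ Icc 1 M, (F (m : ℤ) * ((⌈((m : ℝ) + 1) ^ (1 / c)⌉ : ℝ) - ⌈(m : ℝ) ^ (1 / c)⌉)
      - F (m : ℤ) * ell (1 / c) m) = ∑ m ∈ Icc 1 M, F (m : ℤ) * ww (1 - x) (1 * m) := by
    apply sum_congr rfl
    intro m _
    unfold ww ell
    rw [hγ, one_mul]
    ring
  rw [h2]
  exact (H1 d hd M hM1 hdM 1 le_rfl (by norm_num) F hF).trans
    (mul_le_mul_of_nonneg_left (M_pow hc hγ hx1 hX (Nat.floor_le (by positivity))) (by linarith))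

/-- the transfer inequality for a fixed `d` -/
theorem TS_d {c : ℝ} (hc : 1 < c) (hc' : c < 101 / 100) {d : ℤ} (hd : d % 2 = 1) : ∃ K : ℝ, 0 ≤ K ∧
    ∀ F : ℤ → ℝ, ASync d F → TS c K F := by
  obtain ⟨K, hK, h⟩ := transfer_d hc hc'
  have hc0 : 0 < c := by linarith
  have hγ0 : 0 < 1 / c := by positivity
  have hdp : 0 ≤ |(d : ℝ)| ^ 2000 := by positivity
  refine ⟨K + 2 * |(d : ℝ)| ^ 2000, by linarith, fun F hF => ⟨hF.1, fun X hX => ?_⟩⟩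
  have hX1 : (1 : ℝ) ≤ X := by exact_mod_cast hX
  have hXpos : (0 : ℝ) < X := by linarith
  have hp : (1 : ℝ) ≤ (X : ℝ) ^ (1 - 1 / 4000 : ℝ) := Real.one_le_rpow hX1 (by norm_num)
  by_cases hdX : |(d : ℝ)| ≤ (X : ℝ) ^ (1 / 2000 : ℝ)
  · refine (h d hd F hF X hX hdX).trans ?_
    apply mul_le_mul_of_nonneg_right _ (by linarith)
    linarith
  · have h1 : (X : ℝ) ≤ |(d : ℝ)| ^ 2000 := by
      have h2 : ((X : ℝ) ^ (1 / 2000 : ℝ)) ^ 2000 ≤ |(d : ℝ)| ^ 2000 :=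
        pow_le_pow_left₀ (by positivity) (not_le.1 hdX).le _
      have h3 : ((X : ℝ) ^ (1 / 2000 : ℝ)) ^ 2000 = X := by
        rw [← Real.rpow_natCast, ← Real.rpow_mul (by positivity)]
        norm_num
      rwa [h3] at h2
    have h4 : |∑ n ∈ Icc 1 X, F ⌊(n : ℝ) ^ c⌋| ≤ X := by
      refine (abs_sum_le_sum_abs _ _).trans ?_
      calc ∑ n ∈ Icc 1 X, |F ⌊(n : ℝ) ^ c⌋| ≤ ∑ n ∈ Icc 1 X, (1 : ℝ) := sum_le_sum fun n _ => hF.1 _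
        _ = X := by simp
    have h5 : |∑ m ∈ Icc 1 ⌊(X : ℝ) ^ c⌋₊, F m * ell (1 / c) m| ≤ X := by
      refine (abs_sum_le_sum_abs _ _).trans ?_
      have h6 : ∑ m ∈ Icc 1 ⌊(X : ℝ) ^ c⌋₊, |F m * ell (1 / c) m| ≤
          ∑ m ∈ Icc 1 ⌊(X : ℝ) ^ c⌋₊, ell (1 / c) m := by
        apply sum_le_sum
        intro m _
        rw [abs_mul, abs_of_nonneg (ell_nonneg hγ0 m)]
        exact mul_le_of_le_one_left (ell_nonneg hγ0 m) (hF.1 _)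
      rw [ell_sum] at h6
      have h7 : (((⌊(X : ℝ) ^ c⌋₊ : ℕ) : ℝ) + 1) ^ (1 / c) ≤ X + 1 := by
        have h6 : ((⌊(X : ℝ) ^ c⌋₊ : ℕ) : ℝ) ≤ (X : ℝ) ^ c := Nat.floor_le (by positivity)
        have h7 := pow_gap hc.le hXpos.le
        have hcγ : (((X : ℝ) + 1) ^ c) ^ (1 / c) = X + 1 := by
          rw [← Real.rpow_mul (by positivity), mul_one_div, div_self hc0.ne', Real.rpow_one]
        rw [← hcγ]
        exact Real.rpow_le_rpow (by positivity) (by linarith) hγ0.le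
      linarith
    refine (abs_sub _ _).trans ?_
    have h8 : 2 * (X : ℝ) ≤ 2 * |(d : ℝ)| ^ 2000 * (X : ℝ) ^ (1 - 1 / 4000 : ℝ) := by
      have h9 : 0 ≤ 2 * |(d : ℝ)| ^ 2000 := by linarith
      nlinarith
    have h10 : 0 ≤ K * (X : ℝ) ^ (1 - 1 / 4000 : ℝ) := mul_nonneg hK (by linarith)
    rw [add_mul]
    linarith

open Classical in
/-- indicator function of a set of integers -/
noncomputable def iF (S : Set ℤ) (z : ℤ) : ℝ := if z ∈ S then 1 else 0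

theorem iF_congr {S : Set ℤ} {x y : ℤ} (h : x ∈ S ↔ y ∈ S) : iF S x = iF S y := by
  unfold iF
  by_cases hx : x ∈ S
  · rw [if_pos hx, if_pos (h.1 hx)]
  · rw [if_neg hx, if_neg (fun h' => hx (h.2 h'))]

theorem iF_abs (S : Set ℤ) (z : ℤ) : |iF S z| ≤ 1 := by
  unfold iF
  split_ifs <;> norm_num

theorem async_inv {d : ℤ} {S : Set ℤ} (h : Inv d S) : ASync d (iF S) := by
  refine ⟨iF_abs S, fun j x y _ _ hxy _ => ?_⟩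
  have e : (Td d)^[j] x = (Td d)^[j] y := hxy
  apply iF_congr
  rw [Pool.Agent.H499R2.ND.inv_iter h j x, Pool.Agent.H499R2.ND.inv_iter h j y, e]

theorem iF_nat {s : ℤ} {S : Set ℤ} (m : ℕ) : iF {x : ℤ | s * x ∈ S} (m : ℤ) = ind (fun n : ℕ => s * (n : ℤ) ∈ S) m := by
  unfold iF ind
  by_cases hx : s * (m : ℤ) ∈ S
  · rw [if_pos (show (m : ℤ) ∈ {x : ℤ | s * x ∈ S} from hx), if_pos hx]
  · rw [if_neg (show ¬ (m : ℤ) ∈ {x : ℤ | s * x ∈ S} from hx), if_neg hx]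

theorem floor_eq (c : ℝ) (n : ℕ) : (⌊(n : ℝ) ^ c⌋ : ℤ) = ((⌊(n : ℝ) ^ c⌋₊ : ℕ) : ℤ) :=
  (Int.natCast_floor_eq_floor (by positivity)).symm

theorem abs_side {d s : ℤ} (hs : s = 1 ∨ s = -1) : |((s * d : ℤ) : ℝ)| = |(d : ℝ)| := by
  rcases hs with rfl | rfl
  · rw [one_mul]
  · rw [neg_one_mul, Int.cast_neg, abs_neg]

open Classical in
/-- THE TRANSFER INEQUALITY FOR THE INVARIANT SETS, uniformly in `d` -/
theorem inv_transfer {c : ℝ} (hc : 1 < c) (hc' : c < 101 / 100) : ∃ K : ℝ, 0 ≤ K ∧ ∀ d : ℤ, Odd d →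
    ∀ s : ℤ, (s = 1 ∨ s = -1) → ∀ S : Set ℤ, Inv d S → ∀ X : ℕ, 1 ≤ X → |(d : ℝ)| ≤ (X : ℝ) ^ (1 / 2000 : ℝ) →
    |({n : ℕ | 1 ≤ n ∧ n ≤ X ∧ s * ⌊(n : ℝ) ^ c⌋ ∈ S}.ncard : ℝ) -
      ∑ m ∈ (Icc 1 ⌊(X : ℝ) ^ c⌋₊).filter (fun m : ℕ => s * (m : ℤ) ∈ S),
        (((m : ℝ) + 1) ^ (1 / c) - (m : ℝ) ^ (1 / c))| ≤ K * (X : ℝ) ^ (1 - 1 / 4000 : ℝ) := by
  obtain ⟨K, hK, h⟩ := transfer_d hc hc'
  refine ⟨K, hK, fun d hd s hs S hS X hX hdX => ?_⟩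
  have hI := Pool.Agent.H499R2.ND.side_inv hd hs hS
  have hodd := Int.odd_iff.1 (Pool.Agent.H499R2.ND.side_odd hd hs)
  have h1 := h (s * d) hodd _ (async_inv hI) X hX (by rw [abs_side hs]; exact hdX)
  have e1 : ({n : ℕ | 1 ≤ n ∧ n ≤ X ∧ s * ⌊(n : ℝ) ^ c⌋ ∈ S}.ncard : ℝ) =
      ∑ n ∈ Icc 1 X, iF {x : ℤ | s * x ∈ S} ⌊(n : ℝ) ^ c⌋ := by
    have e : {n : ℕ | 1 ≤ n ∧ n ≤ X ∧ s * ⌊(n : ℝ) ^ c⌋ ∈ S} =
        ((Icc 1 X).filter fun n : ℕ => s * ⌊(n : ℝ) ^ c⌋ ∈ S : Finset ℕ) := by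
      ext n
      simp only [Set.mem_ofPred_eq, coe_filter, mem_Icc, and_assoc]
    rw [e, Set.ncard_coe_finset]
    unfold iF
    simp only [Set.mem_ofPred_eq]
    rw [sum_boole]
  have e2 : ∑ m ∈ (Icc 1 ⌊(X : ℝ) ^ c⌋₊).filter (fun m : ℕ => s * (m : ℤ) ∈ S),
      (((m : ℝ) + 1) ^ (1 / c) - (m : ℝ) ^ (1 / c)) =
      ∑ m ∈ Icc 1 ⌊(X : ℝ) ^ c⌋₊, iF {x : ℤ | s * x ∈ S} m * ell (1 / c) m := by
    rw [sum_filter]
    apply sum_congr rfl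
    intro m _
    unfold iF ell
    simp only [Set.mem_ofPred_eq]
    split_ifs
    · rw [one_mul]
    · rw [zero_mul]
  rw [e1, e2]
  exact h1

/-- densities along the sequences, for a fixed `d` not divisible by 3 -/
theorem seq_side {c : ℝ} (hc : 1 < c) (hc' : c < 101 / 100) {d : ℤ} (hd : Odd d) (hd3 : ¬ (3 : ℤ) ∣ d)
    {s : ℤ} (hs : s = 1 ∨ s = -1) {S : Set ℤ} (h : Inv d S) :
    ∃ l : ℝ, Dn (fun n : ℕ => s * (n : ℤ) ∈ S) l ∧ MnS (ps c) (ind (fun n : ℕ => s * (n : ℤ) ∈ S)) l ∧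
      (∀ a ∈ S, 0 < s * a → ¬ (3 : ℤ) ∣ a → 0 < l) := by
  obtain ⟨l, h0, h1, hl⟩ := Pool.Agent.H499R2.ND.dens_side hd (Pool.Agent.H499R2.ND.cop_of_not_dvd hd3) hs h
  have hD := Pool.Agent.H499R2.LT.dn_side hl
  have hI := Pool.Agent.H499R2.ND.side_inv hd hs h
  have hodd := Int.odd_iff.1 (Pool.Agent.H499R2.ND.side_odd hd hs)
  obtain ⟨K, hK, hT⟩ := TS_d hc hc' hodd
  have hT1 := hT _ (async_inv hI)
  refine ⟨l, hD, ?_, fun a ha1 ha2 ha3 => Pool.Agent.H499R2.ND.class_pos hd hd3 hs h ha1 ha2 ha3 hl⟩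
  apply ps_set hc hc' hK _ (by rw [abs_of_nonneg h0]; exact h1) (Mn_of_Dn hD)
  refine ⟨fun z => ind_abs _ _, fun X hX => ?_⟩
  have h2 := hT1.2 X hX
  have e1 : ∑ n ∈ Icc 1 X, ind (fun n : ℕ => s * (n : ℤ) ∈ S) (⌊(n : ℝ) ^ c⌋).toNat =
      ∑ n ∈ Icc 1 X, iF {x : ℤ | s * x ∈ S} ⌊(n : ℝ) ^ c⌋ := by
    apply sum_congr rfl
    intro n _
    rw [floor_eq, iF_nat, Int.toNat_natCast]
  have e2 : ∑ m ∈ Icc 1 ⌊(X : ℝ) ^ c⌋₊, ind (fun n : ℕ => s * (n : ℤ) ∈ S) ((m : ℤ)).toNat * ell (1 / c) m =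
      ∑ m ∈ Icc 1 ⌊(X : ℝ) ^ c⌋₊, iF {x : ℤ | s * x ∈ S} m * ell (1 / c) m := by
    apply sum_congr rfl
    intro m _
    rw [iF_nat, Int.toNat_natCast]
  dsimp only
  rw [e1, e2]
  exact h2

end Pool.Agent.H417_psd
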